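import Pool.Agent.Run7.h107.BDC

/-!
MP_6acff7_al.  There is a constant `C` such that for every number `m ≥ C` of uniform random
elements of the alternating group `A_n` the following holds with probability tending to one,
uniformly in `m`: every subset `S` of `A_n` which contains them generates `A_n`, and the diameter
of the Cayley graph is at most
`C · n log n · n ^ exp (-√m / C) · exp (C · log² (2 + log n / m))`.
-/

namespace Pool.Agent.Results.MP_6acff7_al.UniformDiameter
open RC14 Filter Topology

theorem result : ∃ C : ℝ, 1 ≤ C ∧ ∀ ϑ : ℝ, 0 < ϑ → ∀ᶠ n : ℕ in atTop, ∀ m : ℕ, C ≤ m →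
    (Nat.card {x : Fin m → Alt n // ¬ ∀ S : Set (Alt n), (∀ i, x i ∈ S) →
      Subgroup.closure S = ⊤ ∧ ((Necf73648.cayleyGraph S).diam : ℝ) ≤
        C * (n * Real.log n) * (n : ℝ) ^ Real.exp (-(Real.sqrt m / C)) *
          Real.exp (C * (Real.log (2 + Real.log n / m)) ^ 2)} : ℝ) ≤
      ϑ * (Fintype.card (Alt n) : ℝ) ^ m :=
  Run7.h107.BD.BDmain

end Pool.Agent.Results.MP_6acff7_al.UniformDiameter
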